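import Pool.Agent.BEK.Stmts

/-!
# Squad BEK (MP_be01ff_an), row HSK: smoothness and the equation of the radial solutions
-/

set_option autoImplicit false

namespace Pool.Agent.BEK.H89

open Set Filter Topology
open Pool.Agent.BEJ Pool.Agent.BEK

noncomputable section

/-- the derivative of `HH` -/
def H1 (x : ℝ) : ℂ := Complex.exp (x * Complex.I) * (Complex.I * QQ 0 x - QQ 1 x)

/-- the second derivative of `HH` -/
def H2 (x : ℝ) : ℂ :=
  Complex.exp (x * Complex.I) * (-QQ 0 x - 2 * Complex.I * QQ 1 x + QQ 2 x)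

theorem dexp (x : ℝ) : HasDerivAt (fun x : ℝ => Complex.exp (x * Complex.I))
    (Complex.exp (x * Complex.I) * Complex.I) x := by
  have h := ((hasDerivAt_id x).ofReal_comp.mul_const Complex.I).cexp
  simpa using h

theorem dHH (qde : QdeStmt) {x : ℝ} (hx : 0 < x) : HasDerivAt HH (H1 x) x := by
  have h := (dexp x).mul (qde.2.1 0 x hx)
  refine HasDerivAt.congr_deriv h ?_
  unfold H1
  ring

theorem dH1 (qde : QdeStmt) {x : ℝ} (hx : 0 < x) : HasDerivAt H1 (H2 x) x := by
  have h0 := qde.2.1 0 x hx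
  have h1 := qde.2.1 1 x hx
  have h := (dexp x).mul ((h0.const_mul Complex.I).sub h1)
  refine HasDerivAt.congr_deriv h ?_
  unfold H2
  simp only [Pi.sub_apply, zero_add, Nat.reduceAdd]
  linear_combination (Complex.exp (x * Complex.I) * QQ 0 x) * Complex.I_mul_I

/-- the imaginary part of `conj c * K (s √t)` -/
def FF (c : ℂ) (K : ℝ → ℂ) (s t : ℝ) : ℝ := ((starRingEnd ℂ) c * K (s * Real.sqrt t)).im

theorem dFF (c : ℂ) (K K' : ℝ → ℂ) (s : ℝ) {t : ℝ} (ht : 0 < t)
    (hK : HasDerivAt K (K' (s * Real.sqrt t)) (s * Real.sqrt t)) :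
    HasDerivAt (FF c K s) (s * (1 / (2 * Real.sqrt t)) * FF c K' s t) t := by
  have h1 : HasDerivAt (fun t : ℝ => s * Real.sqrt t) (s * (1 / (2 * Real.sqrt t))) t :=
    (Real.hasDerivAt_sqrt ht.ne').const_mul s
  have h2 := (hK.scomp t h1).const_mul ((starRingEnd ℂ) c)
  have h3 := Complex.imCLM.hasFDerivAt.comp_hasDerivAt t h2
  refine HasDerivAt.congr_deriv h3 ?_
  unfold FF
  rw [Complex.imCLM_apply, mul_smul_comm, Complex.smul_im, smul_eq_mul]

theorem dis {t : ℝ} (ht : 0 < t) : HasDerivAt (fun t : ℝ => 1 / (2 * Real.sqrt t))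
    (-(1 / (4 * Real.sqrt t ^ 3))) t := by
  have hr : 0 < Real.sqrt t := Real.sqrt_pos.2 ht
  have h1 : HasDerivAt (fun t : ℝ => 2 * Real.sqrt t) (2 * (1 / (2 * Real.sqrt t))) t :=
    (Real.hasDerivAt_sqrt ht.ne').const_mul 2
  have h2 := h1.inv (by positivity)
  have h3 : HasDerivAt (fun t : ℝ => 1 / (2 * Real.sqrt t))
      (-(2 * (1 / (2 * Real.sqrt t))) / (2 * Real.sqrt t) ^ 2) t := by
    refine h2.congr_of_eventuallyEq (Filter.Eventually.of_forall fun y => ?_)
    simp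
  refine HasDerivAt.congr_deriv h3 ?_
  field_simp
  ring

theorem smQ (qde : QdeStmt) : ∀ (n j : ℕ), ContDiffOn ℝ n (QQ j) (Ioi 0) := by
  have hdiff : ∀ j, DifferentiableOn ℝ (QQ j) (Ioi 0) := fun j x hx =>
    (qde.2.1 j x hx).differentiableAt.differentiableWithinAt
  intro n
  induction n with
  | zero =>
    intro j
    exact contDiffOn_zero.2 (hdiff j).continuousOn
  | succ n ih =>
    intro j
    have h : ContDiffOn ℝ ((n : WithTop ℕ∞) + 1) (QQ j) (Ioi 0) := by
      rw [contDiffOn_succ_iff_deriv_of_isOpen isOpen_Ioi]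
      refine ⟨hdiff j, fun h => ?_, ?_⟩
      · exact absurd h (by simp)
      · refine (ih (j + 1)).neg.congr fun x hx => ?_
        exact (qde.2.1 j x hx).deriv
    exact_mod_cast h

theorem smQi (qde : QdeStmt) (j : ℕ) : ContDiffOn ℝ ((⊤ : ℕ∞) : WithTop ℕ∞) (QQ j) (Ioi 0) :=
  contDiffOn_infty.2 fun n => smQ qde n j

/-- HSK. -/
theorem hsk (qde : QdeStmt) : HskStmt := by
  intro c s hs
  constructor
  · have hx : ContDiffOn ℝ ((⊤ : ℕ∞) : WithTop ℕ∞) (fun t : ℝ => s * Real.sqrt t) (Ioi 0) := by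
      intro t ht
      exact (contDiffAt_const.mul (Real.contDiffAt_sqrt (ne_of_gt ht))).contDiffWithinAt
    have hm : MapsTo (fun t : ℝ => s * Real.sqrt t) (Ioi 0) (Ioi 0) := fun t ht =>
      mul_pos hs (Real.sqrt_pos.2 ht)
    have hq := (smQi qde 0).comp hx hm
    have he : ContDiffOn ℝ ((⊤ : ℕ∞) : WithTop ℕ∞)
        (fun t : ℝ => Complex.exp (((s * Real.sqrt t : ℝ) : ℂ) * Complex.I)) (Ioi 0) :=
      ((Complex.ofRealCLM.contDiff.comp_contDiffOn hx).mul contDiffOn_const).cexp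
    have h1 := Complex.imCLM.contDiff.comp_contDiffOn
      ((contDiffOn_const (c := (starRingEnd ℂ) c)).mul (he.mul hq))
    refine h1.congr fun t ht => ?_
    rfl
  · intro t ht
    have hr : 0 < Real.sqrt t := Real.sqrt_pos.2 ht
    have hx : ∀ y : ℝ, 0 < y → 0 < s * Real.sqrt y := fun y hy =>
      mul_pos hs (Real.sqrt_pos.2 hy)
    have hg : gg c s = FF c HH s := rfl
    have hd1 : ∀ y : ℝ, 0 < y → deriv (gg c s) y =
        s * (1 / (2 * Real.sqrt y)) * FF c H1 s y := fun y hy => by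
      rw [hg]
      exact (dFF c HH H1 s hy (dHH qde (hx y hy))).deriv
    have hd2 : deriv (deriv (gg c s)) t =
        s * (-(1 / (4 * Real.sqrt t ^ 3))) * FF c H1 s t +
          s * (1 / (2 * Real.sqrt t)) * (s * (1 / (2 * Real.sqrt t)) * FF c H2 s t) := by
      have he : deriv (gg c s) =ᶠ[𝓝 t]
          fun y => s * (1 / (2 * Real.sqrt y)) * FF c H1 s y := by
        filter_upwards [isOpen_Ioi.mem_nhds ht] with y hy
        exact hd1 y hy
      rw [he.deriv_eq]
      exact (((dis ht).const_mul s).mul (dFF c H1 H2 s ht (dH1 qde (hx t ht)))).deriv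
    have heq : (s * Real.sqrt t) * FF c H2 s t + FF c H1 s t +
        (s * Real.sqrt t) * FF c HH s t = 0 := by
      have h0 := qde.2.2 (s * Real.sqrt t) (hx t ht)
      have h1 : ((s * Real.sqrt t : ℝ) : ℂ) * ((starRingEnd ℂ) c * H2 (s * Real.sqrt t)) +
          (starRingEnd ℂ) c * H1 (s * Real.sqrt t) +
          ((s * Real.sqrt t : ℝ) : ℂ) * ((starRingEnd ℂ) c * HH (s * Real.sqrt t)) = 0 := by
        unfold H1 H2 HH
        linear_combination ((starRingEnd ℂ) c *
          Complex.exp (((s * Real.sqrt t : ℝ) : ℂ) * Complex.I)) * h0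
      have h2 := congrArg Complex.im h1
      rw [Complex.add_im, Complex.add_im, Complex.im_ofReal_mul, Complex.im_ofReal_mul,
        Complex.zero_im] at h2
      exact h2
    unfold Pool.Agent.BES.Lg
    rw [hd1 t ht, hd2, hg]
    have ht2 : t = Real.sqrt t ^ 2 := (Real.sq_sqrt ht.le).symm
    set r := Real.sqrt t with hrdef
    rw [ht2]
    have h4 : 4 * r ^ 2 * (s * (-(1 / (4 * r ^ 3))) * FF c H1 s (r ^ 2) +
          s * (1 / (2 * r)) * (s * (1 / (2 * r)) * FF c H2 s (r ^ 2))) +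
        4 * (1 + 0) * (s * (1 / (2 * r)) * FF c H1 s (r ^ 2)) + s ^ 2 * FF c HH s (r ^ 2) =
        s / r * ((s * r) * FF c H2 s (r ^ 2) + FF c H1 s (r ^ 2) +
          (s * r) * FF c HH s (r ^ 2)) := by
      field_simp
      ring
    rw [h4, ← ht2, heq, mul_zero]

end

end Pool.Agent.BEK.H89
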